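import Pool.Agent.Helper35.SHR.Sheet2

/-! # SHR: the row VAL -/

set_option autoImplicit false

namespace SHR
open SHQ
open scoped ENNReal

theorem VAL_app {n : ℕ} (o : Om) (S : Tr) (f : St n → ℝ≥0∞) (T : Tr) : ∀ s : St n,
    ValC o s (T.app S) f = ValC o s T fun s' => ValC o s' S f := by
  induction T with
  | nil => intro s; rfl
  | one a T ih =>
    intro s
    change wt o s a * ValC o (nx s a) (T.app S) f = _
    rw [ih]; rfl
  | two c T T' ih ih' =>
    intro s
    change kp o s * (ValC o (c + 1, 0) (T.app S) f + ValC o (c + 2, 0) (T'.app S) f) = _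
    rw [ih, ih']; rfl

theorem VAL_tsum {n : ℕ} (o : Om) (T : Tr) (ι : Type) (f : ι → St n → ℝ≥0∞) : ∀ s : St n,
    ValC o s T (fun s' => ∑' i, f i s') = ∑' i, ValC o s T (f i) := by
  induction T with
  | nil => intro s; rfl
  | one a T ih =>
    intro s
    change wt o s a * ValC o (nx s a) T _ = ∑' i, wt o s a * ValC o (nx s a) T (f i)
    rw [ih, ENNReal.tsum_mul_left]
  | two c T T' ih ih' =>
    intro s
    change kp o s * (ValC o (c + 1, 0) T _ + ValC o (c + 2, 0) T' _) =
      ∑' i, kp o s * (ValC o (c + 1, 0) T (f i) + ValC o (c + 2, 0) T' (f i))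
    rw [ih, ih', ENNReal.tsum_mul_left, ENNReal.tsum_add]

theorem VAL_mul {n : ℕ} (o : Om) (T : Tr) (c : ℝ≥0∞) (f : St n → ℝ≥0∞) : ∀ s : St n,
    ValC o s T (fun s' => c * f s') = c * ValC o s T f := by
  induction T with
  | nil => intro s; rfl
  | one a T ih =>
    intro s
    change wt o s a * ValC o (nx s a) T _ = c * (wt o s a * ValC o (nx s a) T f)
    rw [ih, mul_left_comm]
  | two d T T' ih ih' =>
    intro s
    change kp o s * (ValC o (d + 1, 0) T _ + ValC o (d + 2, 0) T' _) =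
      c * (kp o s * (ValC o (d + 1, 0) T f + ValC o (d + 2, 0) T' f))
    rw [ih, ih', ← mul_add, mul_left_comm]

theorem VAL_nd {n : ℕ} (o : Om) (s : St n) (p t : Fin 3) (X Y : Tr) (f : St n → ℝ≥0∞)
    (h : p ≠ t) :
    ValC o s (nd p t X Y) f = kp o s * (ValC o (p, 0) X f + ValC o (t, 0) Y f) := by
  have h1 : (th p t + 1 = p ∧ th p t + 2 = t ∧ ¬ (th p t + 2 = p)) ∨
      (th p t + 2 = p ∧ th p t + 1 = t ∧ ¬ (th p t + 1 = p)) := by
    revert p t; decide
  unfold nd
  change kp o s * (ValC o (th p t + 1, 0) _ f + ValC o (th p t + 2, 0) _ f) = _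
  rcases h1 with ⟨h1, h2, h3⟩ | ⟨h1, h2, h3⟩
  · rw [if_pos h1, if_neg h3, h1, h2]
  · rw [if_neg h3, if_pos h1, h1, h2, add_comm]

theorem VAL_list (φ : List Bool → ℝ≥0∞) :
    ∑' y, φ y = φ [] + (∑' y, φ (true :: y) + ∑' y, φ (false :: y)) := by
  let e : Unit ⊕ (Bool × List Bool) ≃ List Bool :=
    { toFun := fun o => match o with | Sum.inl _ => [] | Sum.inr (b, l) => b :: l
      invFun := fun l => match l with | [] => Sum.inl () | b :: l => Sum.inr (b, l)
      left_inv := by rintro (_ | ⟨b, l⟩) <;> rfl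
      right_inv := by rintro (_ | ⟨b, l⟩) <;> rfl }
  rw [← e.tsum_eq φ, Summable.tsum_sum ENNReal.summable ENNReal.summable, ENNReal.tsum_prod',
    tsum_bool, add_comm (∑' _, _) (∑' _, _), tsum_fintype,
    Finset.univ_unique, Finset.sum_singleton]
  rfl

theorem st_VAL : ST_VAL := fun _ o =>
  ⟨fun s T S f => VAL_app o S f T s, fun s T ι f => VAL_tsum o T ι f s,
   fun s T c f => VAL_mul o T c f s, fun s p t X Y f h => VAL_nd o s p t X Y f h, VAL_list⟩

end SHR
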